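import Pool.Agent.Helper96.QT.DefL

/-!
# QTL14: the completely multiplicative model and the pattern of a prime; `EE` for a prime modulus
-/

namespace Pool.Agent.QT

open Real Filter Topology MeasureTheory Set DirichletCharacter

private lemma CM_mul38 (T : Finset ℕ) {m n : ℕ} (hm : m ≠ 0) (hn : n ≠ 0) :
    CM T (m * n) = CM T m * CM T n := by
  have h : ∀ n : ℕ, CM T n =
      n.factorization.prod fun p k => (if p ∈ T then (-1 : ℝ) else 1) ^ k := fun n => rfl
  rw [h, h, h, Nat.factorization_mul hm hn]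
  apply Finsupp.prod_add_index'
  · intro a
    exact pow_zero _
  · intro a b₁ b₂
    exact pow_add _ _ _

private lemma lam_mul38 {m n : ℕ} (hm : m ≠ 0) (hn : n ≠ 0) : lam (m * n) = lam m * lam n := by
  unfold lam
  rw [ArithmeticFunction.cardFactors_mul hm hn, pow_add]

theorem CM_eq (X q : ℕ) (hq : q.Prime) (hX : X < q) (n : ℕ) (h1 : 1 ≤ n) (hn : n ≤ X) :
    CM (pat X q) n = ((lam n : ℤ) : ℝ) * (jacobiSym n q : ℝ) := by
  revert h1 hn
  induction n using Nat.recOnMul with
  | zero => intro h1; omega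
  | one =>
    intro _ _
    simp [CM, lam]
  | prime p hp =>
    intro h1 hn
    have hc : CM (pat X q) p = if p ∈ pat X q then (-1 : ℝ) else 1 := by
      unfold CM
      rw [hp.primeFactors, Finset.prod_singleton, hp.factorization_self, pow_one]
    have hl : lam p = -1 := by
      unfold lam
      rw [ArithmeticFunction.cardFactors_apply_prime hp, pow_one]
    have hg : Int.gcd (p : ℤ) q = 1 := by
      rw [Int.gcd_natCast_natCast]
      exact (Nat.coprime_primes hp hq).2 (by omega)
    have hmem : p ∈ pat X q ↔ jacobiSym p q = 1 := by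
      unfold pat PX
      simp only [Finset.mem_filter, Finset.mem_Icc]
      exact ⟨fun h => h.2, fun h => ⟨⟨⟨h1, hn⟩, hp⟩, h⟩⟩
    rw [hc, hl]
    rcases jacobiSym.eq_one_or_neg_one hg with h | h
    · rw [if_pos (hmem.2 h), h]
      norm_num
    · rw [if_neg (fun h2 => by rw [hmem, h] at h2; norm_num at h2), h]
      norm_num
  | mul a b iha ihb =>
    intro h1 hn
    have ha : a ≠ 0 := by rintro rfl; simp at h1
    have hb : b ≠ 0 := by rintro rfl; simp at h1
    have ha1 : 1 ≤ a := Nat.one_le_iff_ne_zero.2 ha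
    have hb1 : 1 ≤ b := Nat.one_le_iff_ne_zero.2 hb
    have ha2 : a ≤ X := le_trans (Nat.le_mul_of_pos_right a hb1) hn
    have hb2 : b ≤ X := le_trans (Nat.le_mul_of_pos_left b ha1) hn
    rw [CM_mul38 _ ha hb, lam_mul38 ha hb, iha ha1 ha2, ihb hb1 hb2, Nat.cast_mul,
      jacobiSym.mul_left]
    push_cast
    ring

/-- `EE` for a prime modulus -/
theorem EE_prime (q : ℕ) [NeZero q] (hq : q.Prime) (z : ℂ) :
    EE q z = (1 - (q : ℂ)⁻¹ * Complex.exp (-(2 * z) * Real.log q)) *
      (LFunctionTrivChar₁ 1 (1 + 2 * z) / 2) := by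
  unfold EE
  have hq0 : (q : ℂ) ≠ 0 := by exact_mod_cast hq.ne_zero
  rcases eq_or_ne z 0 with rfl | hz
  · simp only [mul_zero, add_zero, neg_zero, zero_mul, Complex.exp_zero, mul_one]
    simp only [LFunctionTrivChar₁, Function.update_self, hq.primeFactors, Finset.prod_singleton,
      Nat.primeFactors_one, Finset.prod_empty]
    ring
  · have hs : (1 + 2 * z : ℂ) ≠ 1 := by
      intro h
      apply hz
      linear_combination h / 2
    simp only [LFunctionTrivChar₁, Function.update_of_ne hs]
    rw [LFunctionTrivChar_eq_mul_riemannZeta hs, LFunctionTrivChar_eq_mul_riemannZeta hs,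
      hq.primeFactors, Finset.prod_singleton, Nat.primeFactors_one, Finset.prod_empty]
    have h2 : (q : ℂ) ^ (-(1 + 2 * z)) = (q : ℂ)⁻¹ * Complex.exp (-(2 * z) * Real.log q) := by
      rw [Complex.cpow_def_of_ne_zero hq0, Complex.natCast_log]
      have e : Complex.log (q : ℂ) * -(1 + 2 * z) =
          -Complex.log (q : ℂ) + -(2 * z) * Complex.log (q : ℂ) := by ring
      rw [e, Complex.exp_add, Complex.exp_neg, Complex.exp_log hq0]
    rw [h2]
    ring

end Pool.Agent.QT
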